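import Pool.Agent.Q53.LFT.Norm

/-!
# Hilbert squares of K3 surfaces of infinitely many degrees as varieties of lines

The theorem is about lattices of cubic type (`CubLat`, `CubLat.IsCubic`, module `Pool.Agent.Q53.LFY.Defs`):
`ℤ^23` with a symmetric unimodular form `H.ip`, a characteristic vector `H.h` with `h.h = 3` and a complex
vector `H.ω`; the Hodge vectors (`H.IsHodge v`; they form the group `H.hodge`) are those which are
orthogonal to `H.ω`; the form is positive on them, `h` is one of them, and there is no Hodge vector with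
`(v.h, v.v) = (1, 1)` or `(0, 2)`. `H.disc v = 3 v.v - (v.h)^2` is the discriminant of the group spanned by
`h` and `v`, `InC H d` means `H.disc v = d` for a Hodge vector `v` for which this group is saturated, and
`H.HasK3` means `InC H d` for some admissible `d`. No theorem about cubic fourfolds is used or assumed.

By known theorems (Hodge, Voisin, Hassett) the group `H^4(X, ℤ)` of a smooth cubic fourfold `X`, with the
intersection form, the square of the hyperplane class and a generator of `H^{3,1}`, is such a lattice;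
then `H.hodge` is `A(X)`, and `InC H d` means that `X` is in the Hassett divisor `C_d`.

Proof. Let `a^2 disc v = 2 (c^2 - c + 1)`, `c = - n`. We choose a Hodge class `z` with `z.h = 0`, such
that `6 z.z` is not a square and `h`, `v`, `z` are linearly independent (this needs rank three). Let
`m = z.z`, `δ = z.v` and `t^2 = 1 + 6 m s^2`, a solution of Pell's equation. Then
`a^2 disc v' = 2 (c'^2 - c' + 1)` for `a v' = a v + 2 s (t (1 - 2 c) + 6 s a δ) z`,
`c' = c - 6 s (t a δ + s m (1 - 2 c))`; this comes from an isometry of the Néron–Severi group of the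
variety of lines. If `s` is divisible by `a` and the determinant of the discriminant form on `v`, `z`,
then `v'` is integral, and spans a saturated group together with `h`.
-/

set_option autoImplicit false

namespace Pool.Agent.Results.MP_4d0966_ag.HilbertSquaresOfManyDegrees

open Pool.Agent.Q53.LFY Pool.Agent.Q53.LFA Module

/-- `a^2 d = 2 n^2 + 2 n + 2` for some `n`. -/
def Square (a d : ℤ) : Prop := ∃ n : ℤ, a ^ 2 * d = 2 * n ^ 2 + 2 * n + 2

/-- **Lattices of cubic type: infinitely many discriminants of Hilbert square type.**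

Let the group of the Hodge vectors have at least rank three.

(1) Let `InC H d` with `a^2 d = 2 n^2 + 2 n + 2`, `d > 0`, `a ≥ 1`, and let `M ≥ 1`. Then `InC H e` for
infinitely many `e ≡ d mod M` with `a^2 e = 2 k^2 + 2 k + 2` for some `k ≡ n mod M` (with the same `a`).

(2) Let `a ≥ 1`, `M ≥ 1`, `N`, `r` be integers and `R` any proposition. If `R` holds as soon as `InC H e` for
an `e > N` with `e ≡ r mod M` and `a^2 e = 2 k^2 + 2 k + 2` for some `k`, then `R` holds as soon as `InC H d`
for a `d > 0` with `d ≡ r mod M` and `a^2 d = 2 n^2 + 2 n + 2` for some `n`. -/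
theorem result :
    (∀ {H : CubLat}, H.IsCubic → 3 ≤ finrank ℤ H.hodge →
      ∀ d a n : ℤ, 0 < d → InC H d → 0 < a → a ^ 2 * d = 2 * n ^ 2 + 2 * n + 2 →
        ∀ M N : ℤ, 0 < M → ∃ e k : ℤ, N < e ∧ M ∣ e - d ∧ M ∣ k - n ∧ InC H e ∧
          a ^ 2 * e = 2 * k ^ 2 + 2 * k + 2) ∧
    ∀ {H : CubLat}, H.IsCubic → 3 ≤ finrank ℤ H.hodge →
      ∀ (R : Prop) (a M N r : ℤ), 0 < a → 0 < M →
        (∀ e : ℤ, N < e → M ∣ e - r → Square a e → InC H e → R) →
        ∀ d : ℤ, 0 < d → M ∣ d - r → Square a d → InC H d → R := by
  refine ⟨fun hH hr d a n h0 hd ha h M N hM =>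
    Pool.Agent.Q53.LFT.main_hilb hH hr hd h0 ha h hM N, ?_⟩
  intro H hH hr R a M N r ha hM hL d h0 hdr hsq hd
  obtain ⟨n, hn⟩ := hsq
  obtain ⟨e, k, h1, h2, -, h3, h4⟩ := Pool.Agent.Q53.LFT.main_hilb hH hr hd h0 ha hn hM N
  refine hL e h1 ?_ ⟨k, h4⟩ h3
  have : e - r = (e - d) + (d - r) := by ring
  rw [this]
  exact dvd_add h2 hdr

end Pool.Agent.Results.MP_4d0966_ag.HilbertSquaresOfManyDegrees
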