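import Pool.Agent.Q168.LG.TwoPow
import Pool.Agent.Q168.LG.DiscMain

/-!
# Hilbert squares and rationality: cubic lattices with a plane vector or with a small discriminant

The theorem is about lattices of cubic type (`CubLat`, `CubLat.IsCubic`, module `Pool.Agent.Q53.LFY.Defs`):
`ℤ^23` with a symmetric unimodular form `H.ip`, a characteristic vector `H.h` with `h.h = 3` and a complex
vector `H.ω`; the Hodge vectors (`H.IsHodge v`; they form the group `H.hodge`) are those which are
orthogonal to `H.ω`; the form is positive on them, `h` is one of them, and there is no Hodge vector with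
`(v.h, v.v) = (1, 1)` or `(0, 2)`. `H.disc v = 3 v.v - (v.h)^2` is the discriminant of the group spanned by
`h` and `v`, `InC H d` means that it is `d` for some Hodge vector `v` such that this group is saturated, and
`H.HasK3` that this is so for some admissible `d`. `H.IsPl P`: `P` is a Hodge vector with `P.h = 1` and
`P.P = 3` (a plane vector). No theorem about cubic fourfolds is used or assumed.

By known theorems (Hodge, Voisin, Hassett) the group `H^4(X, ℤ)` of a smooth cubic fourfold `X`, with the
intersection form, the square of the hyperplane class and a generator of `H^{3,1}`, is such a lattice, and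
the plane vectors are the classes of the planes in `X`. `InC H d` means that `X` is in Hassett's divisor
`C_d`, and `H.HasK3` that `X` has an associated K3 surface. `X` is rational if `T.(h - P)` is odd for a plane
vector `P` and a Hodge vector `T` (Hassett), and if it is in `C_14` (Bolognesi, Russo, Staglianò), `C_26`,
`C_38` or `C_42` (Russo, Staglianò): `IsKnown` is this condition of the lattice.
`discA b` is the determinant of the matrix of the form in a basis `b` of `H.hodge`.

The variety of lines `F(X)` is birational to the Hilbert square `S^[2]` of a K3 surface `S` if and only if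
`X` is in `C_d` for some `d` with `a^2 d = 2 n^2 + 2 n + 2` (Addington, `On two rationality conjectures
for cubic fourfolds`): this condition is `IsHilb H`.
-/

set_option autoImplicit false

namespace Pool.Agent.Results.MP_4d0966_ag.PlanesAndSmallDiscriminants

open Pool.Agent.Q53.LFY Pool.Agent.Q53.LFY.CubLat Pool.Agent.Q53.LFA Module
open Pool.Agent.Q53.LFB hiding IsHilb planeBound
open Pool.Agent.Q168.LG hiding bound

/-- Some Hodge vector `v` for which `h` and `v` span a saturated group has
`a^2 disc v = 2 n^2 + 2 n + 2` with `a ≠ 0`. -/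
def IsHilb (H : CubLat) : Prop :=
  ∃ v, H.IsHodge v ∧ H.Saturated v ∧ ∃ a n : ℤ, a ≠ 0 ∧ a ^ 2 * H.disc v = 2 * n ^ 2 + 2 * n + 2

/-- The lattice condition of the known rationality theorems: `InC H d` for `d = 14`, `26`, `38` or `42`, or
`T.(h - P)` is odd for some plane vector `P` and some Hodge vector `T`. -/
def IsKnown (H : CubLat) : Prop :=
  (InC H 14 ∨ InC H 26 ∨ InC H 38 ∨ InC H 42) ∨
    ∃ P T, H.IsPl P ∧ H.IsHodge T ∧ Odd (H.ip T (H.h - P))

/-- The bound for the discriminant of the group of the Hodge vectors, as a function of its rank, for `H`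
with a plane vector. -/
def planeBound : ℕ → ℤ
  | 3 => 127
  | 4 => 223
  | 5 => 299
  | 6 => 307
  | 7 => 239
  | 8 => 142
  | _ => 0

/-- The bound for the discriminant of the group of the Hodge vectors, as a function of its rank. -/
def bound : ℕ → ℤ
  | 2 => 61
  | 3 => 68
  | 4 => 80
  | 5 => 136
  | 6 => 172
  | 7 => 164
  | 8 => 116
  | _ => 0

theorem hilb_of_inK {H : CubLat} (h : InK H) : IsHilb H := by
  rcases h with ⟨v, h1, h2, h3⟩ | ⟨v, h1, h2, h3⟩ | ⟨v, h1, h2, h3⟩ | ⟨v, h1, h2, h3⟩
  · exact ⟨v, h1, h2, 1, 2, by norm_num, by rw [h3]; norm_num⟩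
  · exact ⟨v, h1, h2, 1, 3, by norm_num, by rw [h3]; norm_num⟩
  · exact ⟨v, h1, h2, 7, 30, by norm_num, by rw [h3]; norm_num⟩
  · exact ⟨v, h1, h2, 1, 4, by norm_num, by rw [h3]; norm_num⟩

theorem planeBound_le (r : ℕ) : planeBound r ≤ Pool.Agent.Q53.LFB.planeBound r := by
  match r with
  | 0 | 1 | 2 | 3 | 4 | 5 | 6 | 7 | 8 => decide
  | _ + 9 => exact le_refl _

theorem bound_eq (r : ℕ) : bound r = Pool.Agent.Q168.LG.bound r := by
  match r with
  | 0 | 1 | 2 | 3 | 4 | 5 | 6 | 7 | 8 => rfl
  | _ + 9 => rfl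

/-- **Cubic lattices with a plane vector or with a small discriminant.**

(1) If `H` has a plane vector: `IsHilb H` if and only if `H.HasK3`, and if and only if some Hodge vector has a
discriminant which is not divisible by `4`.

(2) If `H` has a plane vector and `InC H d` for a `d ≤ 42` not divisible by `4`, then `IsHilb H` and
`IsKnown H`.

(3) If `H` has a plane vector and the discriminant of the group of the Hodge vectors is at most
`planeBound r`, `r` its rank, then `IsHilb H` if and only if `IsKnown H`.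

(4) If this discriminant is at most `bound r`, then `IsHilb H`, `H.HasK3` and `IsKnown H` are equivalent. -/
theorem result {H : CubLat} (hH : H.IsCubic) :
    ((∃ P, H.IsPl P) →
      ((IsHilb H ↔ H.HasK3) ∧ (IsHilb H ↔ ∃ v, H.IsHodge v ∧ ¬ (4 : ℤ) ∣ H.disc v)) ∧
      (∀ d : ℤ, d ≤ 42 → ¬ (4 : ℤ) ∣ d → InC H d → IsHilb H ∧ IsKnown H) ∧
      (∀ (r : ℕ) (b : Basis (Fin r) ℤ H.hodge), discA b ≤ planeBound r →
        (IsHilb H ↔ IsKnown H))) ∧
    (∀ (r : ℕ) (b : Basis (Fin r) ℤ H.hodge), discA b ≤ bound r →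
      ((IsHilb H ↔ H.HasK3) ∧ (IsHilb H ↔ IsKnown H))) := by
  have hodd : (∃ P T, H.IsPl P ∧ H.IsHodge T ∧ Odd (H.ip T (H.h - P))) → IsHilb H := by
    rintro ⟨P, T, hP, hT, h⟩
    refine (of_plane hH hP hT (Or.inr ?_)).1
    rw [← Int.not_even_iff_odd, even_iff hH hP, not_not]
    exact h
  have hev : ¬ (∃ P T, H.IsPl P ∧ H.IsHodge T ∧ Odd (H.ip T (H.h - P))) →
      ∀ P, H.IsPl P → ∀ T, H.IsHodge T → Even (D H P T) :=
    fun hno P hP T hT => (even_iff hH hP).2 fun h => hno ⟨P, T, hP, hT, h⟩
  have hback : IsKnown H → IsHilb H := fun h => h.elim hilb_of_inK hodd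
  have hK3 : IsHilb H → H.HasK3 := by
    rintro ⟨v, hv, hs, a, n, ha, h⟩
    have hv0 : 0 < H.disc v := by
      by_contra hcon
      push Not at hcon
      have h1 : a ^ 2 * H.disc v ≤ 0 := mul_nonpos_of_nonneg_of_nonpos (by positivity) hcon
      rw [h] at h1
      nlinarith [sq_nonneg (2 * n + 1)]
    exact ⟨v, hv, hs, hH.six_lt hv hv0, four_not_dvd h, nine_not_dvd h,
      fun p hp hp2 hd => prime_mod h hp hp2 hd⟩
  refine ⟨?_, fun r b hd => ?_⟩
  · rintro ⟨P, hP⟩
    have h1 := plane_iff hH hP
    refine ⟨⟨h1.2.trans h1.1.symm, h1.2⟩, fun d hd h4 hC => ?_, fun r b hb => ⟨fun hI => ?_, hback⟩⟩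
    · obtain ⟨v, hv, -, h3⟩ := hC
      refine ⟨h1.2.2 ⟨v, hv, by rw [h3]; exact h4⟩, ?_⟩
      by_cases hno : ∃ P T, H.IsPl P ∧ H.IsHodge T ∧ Odd (H.ip T (H.h - P))
      · exact Or.inr hno
      · exact Or.inl (plane_two hH hP hv (hev hno _ hP v hv) (by rw [h3]; exact hd)
          (by rw [h3]; exact h4))
    · obtain ⟨v, hv, h4⟩ := h1.2.1 hI
      by_cases hno : ∃ P T, H.IsPl P ∧ H.IsHodge T ∧ Odd (H.ip T (H.h - P))
      · exact Or.inr hno
      · exact Or.inl (inK_of_plane hH b (hb.trans (planeBound_le r)) hP (hev hno) hv h4)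
  · rw [bound_eq] at hd
    have h1 : H.HasK3 → IsKnown H := by
      intro hK
      by_cases hno : ∃ P T, H.IsPl P ∧ H.IsHodge T ∧ Odd (H.ip T (H.h - P))
      · exact Or.inr hno
      · exact Or.inl (inK_of_bound hH b hd (hev hno) hK)
    exact ⟨⟨hK3, fun hK => hback (h1 hK)⟩, fun h => h1 (hK3 h), hback⟩

end Pool.Agent.Results.MP_4d0966_ag.PlanesAndSmallDiscriminants
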