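import Pool.Agent.Q53.LFM.Five

/-!
# Hilbert squares and associated K3 surfaces in rank five

The theorem is about lattices of cubic type (`CubLat`, `CubLat.IsCubic`, module `Pool.Agent.Q53.LFY.Defs`):
`ℤ^23` with a symmetric unimodular form `H.ip`, a characteristic vector `H.h` with `h.h = 3` and a complex
vector `H.ω`; the Hodge vectors (`H.IsHodge v`; they form the group `H.hodge`) are those which are
orthogonal to `H.ω`; the form is positive on them, `h` is one of them, and there is no Hodge vector with
`(v.h, v.v) = (1, 1)` or `(0, 2)`. `H.disc v = 3 v.v - (v.h)^2` is the discriminant of the group spanned by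
`h` and `v`, `InC H d` means `H.disc v = d` for a Hodge vector `v` for which this group is saturated, and
`H.HasK3` means `InC H d` for some admissible `d`. No theorem about cubic fourfolds is used or assumed.

By known theorems (Hodge, Voisin, Hassett) the group `H^4(X, ℤ)` of a smooth cubic fourfold `X`, with the
intersection form, the square of the hyperplane class and a generator of `H^{3,1}`, is such a lattice;
then `H.hodge` is `A(X)`, and `InC H d` means that `X` is in the Hassett divisor `C_d`.
`IsHilb H`: `InC H d` for some `d` with `a^2 d = 2 n^2 + 2 n + 2`; by Addington this means that the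
variety of lines `F(X)` is birational to `S^[2]` for a K3 surface `S`.

Proof. Let `M` be the algebraic Mukai lattice: the triples `(a, b, v)` with `a + b ≡ v.h mod 3` and the form
`F = (a^2 - a b + b^2 - disc v / 2) / 3`. Let `λ = (1, 2, 0)`, so `B(λ, (a, b, v)) = b`. We need an isotropic
vector `p` with `B(λ, p) = 1`. If there is a Hodge class `v₀` with `disc v₀ = 2 k^2` (for `rk A(X) ≥ 5` this
follows from Meyer's theorem, which we prove: the indefinite form `2 Σ disc(v_i) x_i^2 - t^2` in five
variables, `v_i` an orthogonal basis of the orthogonal complement of `h`, has a zero with `t ≠ 0`), then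
there is an isotropic vector `p₀ = (k, 0, v₀)` orthogonal to `λ`; let `e` be
its divisor. The local conditions give hyperbolic planes modulo every prime, and (after a small change, a
reflection is not enough) vectors `w` with `F(w) = 0`, `B(λ, w) = 1` modulo a high power of `ℓ` such that
`B(p₀, w) / e` is not divisible by `ℓ^2`. By the Chinese remainder theorem and Dirichlet's theorem there is
a `w` with `B(λ, w) = 1`, `B(p₀, w) = e δ P` with a prime number `P` and `e δ ∣ F(w)`. The orthogonal
complement of `λ`, `p₀` modulo `p₀` has rank at least two, so `w` can be changed such that `P ∣ F(w)`. Then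
`p = w - (F(w) / B(p₀, w)) p₀` has the required properties.
-/

set_option autoImplicit false

namespace Pool.Agent.Results.MP_4d0966_ag.RankFive

open Pool.Agent.Q53.LFY Pool.Agent.Q53.LFA

/-- Some Hodge vector `v` for which `h` and `v` span a saturated group has
`a^2 disc v = 2 n^2 + 2 n + 2` with `a ≠ 0`. -/
def IsHilb (H : CubLat) : Prop :=
  ∃ v, H.IsHodge v ∧ H.Saturated v ∧ ∃ a n : ℤ, a ≠ 0 ∧ a ^ 2 * H.disc v = 2 * n ^ 2 + 2 * n + 2

/-- For every prime number `p ≡ 2 mod 3` there is a `d` with `InC H d` and `p ∤ d / 2`, and there is a `d`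
with `InC H d` and `d ≡ 2 mod 3` or `d ≡ 6 mod 18`. -/
def LocalConditions (H : CubLat) : Prop :=
  (∀ p : ℕ, p.Prime → p % 3 = 2 → ∃ d : ℤ, InC H d ∧ ¬ (p : ℤ) ∣ d / 2) ∧
    ∃ d : ℤ, InC H d ∧ (d % 3 = 2 ∨ d % 18 = 6)

/-- **Lattices of cubic type with many Hodge vectors.**

(1) Let the group of the Hodge vectors have rank at least five. Then `IsHilb H` if and only if `H.HasK3`, and
if and only if the local conditions hold.

(2) The same holds if the rank is at least four and `InC H (2 k ^ 2)` for some `k ≠ 0`. -/
theorem result {H : CubLat} (hH : H.IsCubic) :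
    (5 ≤ Module.finrank ℤ H.hodge → (IsHilb H ↔ H.HasK3) ∧ (IsHilb H ↔ LocalConditions H)) ∧
    (4 ≤ Module.finrank ℤ H.hodge → ∀ k : ℤ, k ≠ 0 → InC H (2 * k ^ 2) →
      (IsHilb H ↔ H.HasK3) ∧ (IsHilb H ↔ LocalConditions H)) := by
  refine ⟨fun hr => ?_, fun hr k hk hC => ?_⟩
  · have h := Pool.Agent.Q53.LFM.hilb_iff_five hH hr
    exact ⟨h.1, h.2.trans (Pool.Agent.Q53.LFT.local_iff_inC hH)⟩
  · obtain ⟨v, hv, -, hd⟩ := hC
    have h := Pool.Agent.Q53.LFT.hilb_iff hH hr hv hk hd
    exact ⟨h.1, h.2.trans (Pool.Agent.Q53.LFT.local_iff_inC hH)⟩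

end Pool.Agent.Results.MP_4d0966_ag.RankFive
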