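import Pool.Agent.Q53.LFC.Ex

/-!
# Hilbert squares of K3 surfaces on the divisors `C_d`, `d = 2 m ^ 2`

The theorem is about lattices of cubic type (`CubLat`, `CubLat.IsCubic`, module `Pool.Agent.Q53.LFY.Defs`):
`ℤ^23` with a symmetric unimodular form `H.ip`, a characteristic vector `H.h` with `h.h = 3` and a complex
vector `H.ω`; the Hodge vectors (`H.IsHodge v`) are those which are orthogonal to `H.ω`; the form is
positive on them, `h` is one of them, and there is no Hodge vector with `(v.h, v.v) = (1, 1)` or `(0, 2)`.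
`H.disc v = 3 v.v - (v.h)^2` is the discriminant of the group spanned by `h` and `v`. No theorem about
cubic fourfolds is used or assumed.

By known theorems (Hodge, Voisin, Hassett) the group `H^4(X, ℤ)` of a smooth cubic fourfold `X`, with the
intersection form, the square of the hyperplane class and a generator of `H^{3,1}`, is such a lattice.
`H.HasK3` then means that `X` is in Hassett's divisor `C_d` for some admissible `d`, that is, `X` has an
associated K3 surface; and `IsHilb H` means that the variety of lines `F(X)` is birational to the Hilbert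
square of a K3 surface (Addington, `On two rationality conjectures for cubic fourfolds`).
-/

set_option autoImplicit false

namespace Pool.Agent.Results.MP_4d0966_ag.TwiceSquareDivisors

open Pool.Agent.Q53.LFY Pool.Agent.Q53.LFC Pool.Agent.Q53.CF

/-- Some Hodge vector `v` for which `h` and `v` span a saturated group has
`a^2 disc v = 2 n^2 + 2 n + 2` with `a ≠ 0`. -/
def IsHilb (H : CubLat) : Prop :=
  ∃ v, H.IsHodge v ∧ H.Saturated v ∧ ∃ a n : ℤ, a ≠ 0 ∧ a ^ 2 * H.disc v = 2 * n ^ 2 + 2 * n + 2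

/-- The conditions at the primes dividing `m`: if `2` divides `m`, some Hodge vector has a discriminant
not divisible by `4`; if `3` divides `m`, some Hodge vector has a discriminant which is not `0` or `3`
modulo `9`; and for every odd prime `p ≡ 2 mod 3` dividing `m` some Hodge vector has a discriminant
not divisible by `p`. -/
def LocalConditions (H : CubLat) (m : ℕ) : Prop :=
  (2 ∣ m → ∃ v, H.IsHodge v ∧ ¬ (4 : ℤ) ∣ H.disc v) ∧
  (3 ∣ m → ∃ v, H.IsHodge v ∧ H.disc v % 9 ≠ 0 ∧ H.disc v % 9 ≠ 3) ∧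
  (∀ p : ℕ, p.Prime → p ≠ 2 → p % 3 = 2 → p ∣ m → ∃ v, H.IsHodge v ∧ ¬ (p : ℤ) ∣ H.disc v)

/-- **Lattices of cubic type with a Hodge vector of discriminant `2 m ^ 2`.**

(1) Let `m` be one of `2, 3, 4, 5, 6, 9, 10, 18`, and let `H` have a Hodge vector `F` of discriminant
`2 m ^ 2` (`8, 18, 32, 50, 72, 162, 200, 648`). Then `IsHilb H` if and only if `H.HasK3`, and if and only
if the conditions at the primes dividing `m` hold.

(2) Let `m` be arbitrary, `F` a Hodge vector of discriminant `2 m ^ 2` and `T` a Hodge vector such that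
`m` and `3 F.T - (F.h)(T.h)` are coprime. Then `IsHilb H` and `H.HasK3`.

(3) Let `F` and `T` be Hodge vectors with `F.h = 6`, `F.F = 18`, and let `F.T` or `T.h` be not divisible
by `3`. Then `IsHilb H` and `H.HasK3`.

(4) If `F` is a Hodge vector of discriminant `98` (`m = 7`), `h` and `F` span a saturated group and all
Hodge vectors are rational combinations of `h` and `F`, then `H.HasK3`, but not `IsHilb H`. -/
theorem result {H : CubLat} (hH : H.IsCubic) :
    (∀ m ∈ ({2, 3, 4, 5, 6, 9, 10, 18} : Finset ℕ), ∀ F, H.IsHodge F → H.disc F = 2 * (m : ℤ) ^ 2 →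
      (IsHilb H ↔ H.HasK3) ∧ (IsHilb H ↔ LocalConditions H m)) ∧
    (∀ (m : ℤ) F T, H.IsHodge F → H.IsHodge T → H.disc F = 2 * m ^ 2 →
      IsCoprime m (3 * H.ip F T - H.ip F H.h * H.ip T H.h) → IsHilb H ∧ H.HasK3) ∧
    (∀ F T, H.IsHodge F → H.IsHodge T → H.ip F H.h = 6 → H.ip F F = 18 →
      (¬ (3 : ℤ) ∣ H.ip F T ∨ ¬ (3 : ℤ) ∣ H.ip T H.h) → IsHilb H ∧ H.HasK3) ∧
    (∀ F, H.IsHodge F → H.Saturated F → H.disc F = 98 →
      (∀ v, H.IsHodge v → ∃ a b c : ℤ, c ≠ 0 ∧ c • v = a • H.h + b • F) →
      H.HasK3 ∧ ¬ IsHilb H) := by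
  have hK3 : IsHilb H → H.HasK3 := by
    rintro ⟨v, hv, hs, a, n, ha, h⟩
    have hv0 : 0 < H.disc v := by
      by_contra hcon
      push Not at hcon
      have h1 : a ^ 2 * H.disc v ≤ 0 := mul_nonpos_of_nonneg_of_nonpos (by positivity) hcon
      rw [h] at h1
      nlinarith [sq_nonneg (2 * n + 1)]
    exact ⟨v, hv, hs, hH.six_lt hv hv0, four_not_dvd h, nine_not_dvd h,
      fun p hp hp2 hd => prime_mod h hp hp2 hd⟩
  refine ⟨fun m hm F hF hd => ?_, fun m F T hF hT hd h => ?_, fun F T hF hT h6 h18 h => ?_,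
    fun F hF hs hd hr => ?_⟩
  · have hm' : m = 2 ∨ m = 3 ∨ m = 4 ∨ m = 5 ∨ m = 6 ∨ m = 9 ∨ m = 10 ∨ m = 18 := by
      simpa only [Finset.mem_insert, Finset.mem_singleton] using hm
    have h1 : LocalConditions H m → IsHilb H := fun hL => (main hH hF hm' hd hL).1
    have h2 : H.HasK3 → LocalConditions H m := fun hK => local_of_hasK3 hH hK m
    exact ⟨⟨hK3, fun hK => h1 (h2 hK)⟩, ⟨fun hI => h2 (hK3 hI), h1⟩⟩
  · exact hilb_coprime hH hF hT hd h
  · exact fibre hH hF hT (disc_fibre hH h6 h18) h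
  · exact ninety_eight hH hF hs hd hr

end Pool.Agent.Results.MP_4d0966_ag.TwiceSquareDivisors
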